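import Pool.Agent.Work.MP_db9399_all.Interface
import Pool.Agent.Work.MP_db9399_co.Defs

/-!
FIN: from the vertex colouring theorem (MVT), Vizing's theorem (VIZ) and greedy edge colouring
(GRE) to extensions of total colourings of a distance-3 matching.
-/

set_option autoImplicit false
set_option linter.unusedSectionVars false

namespace Pool.Agent.Work.MP_db9399_all

open Finset Classical
open _root_.MP_db9399_co

universe u

namespace FIN

section
variable {V : Type u}

lemma edist_two (G : SimpleGraph V) {u v w : V} (h1 : G.Adj u v) (h2 : G.Adj v w) :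
    ¬ (3 ≤ G.edist u w) := by
  intro h
  have h3 : G.edist u w ≤ ((SimpleGraph.Walk.cons h1 (SimpleGraph.Walk.cons h2
    SimpleGraph.Walk.nil)).length : ℕ∞) := SimpleGraph.edist_le _
  have h4 := h.trans h3
  simp only [SimpleGraph.Walk.length_cons, SimpleGraph.Walk.length_nil] at h4
  exact absurd h4 (by norm_num)

lemma edist_one (G : SimpleGraph V) {u v : V} (h1 : G.Adj u v) :
    ¬ (3 ≤ G.edist u v) := by
  intro h
  have h3 : G.edist u v ≤ ((SimpleGraph.Walk.cons h1 SimpleGraph.Walk.nil).length : ℕ∞) :=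
    SimpleGraph.edist_le _
  have h4 := h.trans h3
  simp only [SimpleGraph.Walk.length_cons, SimpleGraph.Walk.length_nil] at h4
  exact absurd h4 (by norm_num)

variable [Fintype V]

/-- neighbours of `v` on `H` -/
noncomputable def hv {G : SimpleGraph V} (H : G.Subgraph) (v : V) : Finset V :=
  (nb G v).filter (fun u => u ∈ H.verts)

lemma mem_nb {G : SimpleGraph V} {v w : V} : w ∈ nb G v ↔ G.Adj v w := by
  simp [nb]

lemma mem_hv {G : SimpleGraph V} {H : G.Subgraph} {v w : V} :
    w ∈ hv H v ↔ G.Adj v w ∧ w ∈ H.verts := by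
  simp [hv, nb]

lemma uniq {G : SimpleGraph V} {H : G.Subgraph} (hH : IsDistThreeMatching H) {a b c : V}
    (h1 : H.Adj a b) (h2 : H.Adj a c) : b = c := by
  obtain ⟨w, _, hw⟩ := hH.1 (H.edge_vert h1)
  rw [hw b h1, hw c h2]

lemma card_hv {G : SimpleGraph V} {H : G.Subgraph} (hH : IsDistThreeMatching H) (v : V) :
    (hv H v).card ≤ 2 := by
  by_contra hcon
  rw [not_le, two_lt_card] at hcon
  obtain ⟨a, ha, b, hb, c, hc, hab, hac, hbc⟩ := hcon
  rw [mem_hv] at ha hb hc
  have h1 : H.Adj a b := by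
    by_contra h
    exact edist_two G ha.1.symm hb.1 (hH.2 a ha.2 b hb.2 hab h)
  have h2 : H.Adj a c := by
    by_contra h
    exact edist_two G ha.1.symm hc.1 (hH.2 a ha.2 c hc.2 hac h)
  exact hbc (uniq hH h1 h2)

lemma adj_of_verts {G : SimpleGraph V} {H : G.Subgraph} (hH : IsDistThreeMatching H) {a b : V}
    (ha : a ∈ H.verts) (hb : b ∈ H.verts) (h : G.Adj a b) : H.Adj a b := by
  by_contra hn
  exact edist_one G h (hH.2 a ha b hb h.ne hn)

/-- colours of the `H`-edge at `v` -/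
noncomputable def he {G : SimpleGraph V} (H : G.Subgraph) (t0 : Sym2 V → ℕ) (v : V) :
    Finset ℕ := (univ.filter (fun u => H.Adj v u)).image (fun u => t0 s(v, u))

lemma mem_he {G : SimpleGraph V} {H : G.Subgraph} {t0 : Sym2 V → ℕ} {v : V} {a : ℕ} :
    a ∈ he H t0 v ↔ ∃ u, H.Adj v u ∧ t0 s(v, u) = a := by
  simp [he]

lemma card_he {G : SimpleGraph V} {H : G.Subgraph} (hH : IsDistThreeMatching H)
    (t0 : Sym2 V → ℕ) (v : V) : (he H t0 v).card ≤ 1 := by
  refine card_image_le.trans ?_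
  rw [card_le_one]
  intro a ha b hb
  rw [mem_filter] at ha hb
  exact uniq hH ha.2 hb.2

/-- forbidden colours of an edge -/
noncomputable def fe {G : SimpleGraph V} (H : G.Subgraph) (t0 : Sym2 V → ℕ) (c : V → ℕ)
    (v w : V) : Finset ℕ := ({c v} ∪ {c w}) ∪ (he H t0 v ∪ he H t0 w)

lemma fe_symm {G : SimpleGraph V} (H : G.Subgraph) (t0 : Sym2 V → ℕ) (c : V → ℕ)
    (v w : V) : fe H t0 c v w = fe H t0 c w v := by
  unfold fe
  rw [union_comm {c v}, union_comm (he H t0 v)]

lemma card_fe {G : SimpleGraph V} {H : G.Subgraph} (hH : IsDistThreeMatching H)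
    (t0 : Sym2 V → ℕ) (c : V → ℕ) (v w : V) : (fe H t0 c v w).card ≤ 4 := by
  unfold fe
  refine (card_union_le _ _).trans ?_
  have h1 : (({c v} : Finset ℕ) ∪ {c w}).card ≤ 2 := (card_union_le _ _).trans (by simp)
  have h2 : (he H t0 v ∪ he H t0 w).card ≤ 2 :=
    (card_union_le _ _).trans (Nat.add_le_add (card_he hH t0 v) (card_he hH t0 w))
  omega

/-- the rejected edges -/
def RG {G : SimpleGraph V} (H : G.Subgraph) (t0 : Sym2 V → ℕ) (c : V → ℕ) (t : V → V → ℕ)
    (ht : ∀ v w, t v w = t w v) : SimpleGraph V where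
  Adj v w := G.Adj v w ∧ ¬ H.Adj v w ∧ t v w ∈ fe H t0 c v w
  symm := ⟨fun v w h => ⟨h.1.symm, fun h' => h.2.1 h'.symm, by
    rw [ht w v, fe_symm]; exact h.2.2⟩⟩
  loopless := ⟨fun v h => h.1.ne rfl⟩

lemma card_RG {G : SimpleGraph V} {H : G.Subgraph} (hH : IsDistThreeMatching H)
    (t0 : Sym2 V → ℕ) (c : V → ℕ) (t : V → V → ℕ) (ht : ∀ v w, t v w = t w v) (K : ℕ)
    (hti : ∀ v, Set.InjOn (t v) (nb G v : Set V))
    (hK : ∀ v, ((nb G v).filter (fun x => x ∉ H.verts ∧ c x = t v x)).card ≤ K) (v : V) :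
    (nb (RG H t0 c t ht) v).card ≤ K + 4 := by
  have hsub : nb (RG H t0 c t ht) v ⊆
      (((nb G v).filter (fun x => x ∉ H.verts ∧ c x = t v x)) ∪
      ((nb G v).filter (fun x => t v x = c v))) ∪
      (((nb G v).filter (fun x => t v x ∈ he H t0 v)) ∪ hv H v) := by
    intro x hx
    rw [mem_nb] at hx
    obtain ⟨h1, h2, h3⟩ := hx
    unfold fe at h3
    simp only [mem_union, mem_singleton] at h3
    simp only [mem_union, mem_filter, mem_nb, mem_hv]
    by_cases hxH : x ∈ H.verts
    · exact Or.inr (Or.inr ⟨h1, hxH⟩)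
    · rcases h3 with (h3 | h3) | (h3 | h3)
      · exact Or.inl (Or.inr ⟨h1, h3⟩)
      · exact Or.inl (Or.inl ⟨h1, hxH, h3.symm⟩)
      · exact Or.inr (Or.inl ⟨h1, h3⟩)
      · rw [mem_he] at h3
        obtain ⟨u, hu, _⟩ := h3
        exact absurd (H.edge_vert hu) hxH
  have e1 : ((nb G v).filter (fun x => t v x = c v)).card ≤ 1 := by
    rw [card_le_one]
    intro a ha b hb
    rw [mem_filter] at ha hb
    exact hti v (mem_coe.2 ha.1) (mem_coe.2 hb.1) (ha.2.trans hb.2.symm)
  have e2 : ((nb G v).filter (fun x => t v x ∈ he H t0 v)).card ≤ 1 := by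
    rw [card_le_one]
    intro a ha b hb
    rw [mem_filter] at ha hb
    have h1 := card_le_one.1 (card_he hH t0 v) _ ha.2 _ hb.2
    exact hti v (mem_coe.2 ha.1) (mem_coe.2 hb.1) h1
  refine (card_le_card hsub).trans ((card_union_le _ _).trans ?_)
  have e3 := card_union_le ((nb G v).filter (fun x => x ∉ H.verts ∧ c x = t v x))
    ((nb G v).filter (fun x => t v x = c v))
  have e4 := card_union_le ((nb G v).filter (fun x => t v x ∈ he H t0 v)) (hv H v)
  have e5 := card_hv hH v
  have e6 := hK v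
  omega

end

end FIN

/-- FIN: every total colouring, with at least `Δ + C` colours, of a distance-3 matching extends. -/
theorem stmt_FIN (hM : Stmt_MVT.{u}) (hV : Stmt_VIZ.{u}) (hG : Stmt_GRE.{u}) :
    ∃ C : ℕ, ∀ {V : Type u} [Fintype V] (G : SimpleGraph V) (Δ k : ℕ),
      (∀ v, (nb G v).card ≤ Δ) → Δ + C ≤ k → ∀ H : G.Subgraph, IsDistThreeMatching H →
      EveryTotalColoringExtends H (Fin k) := by
  obtain ⟨C, K, HM⟩ := hM 2
  refine ⟨C + 1 + 2 * (K + 4) + 4, fun {V} _ G Δ k hdeg hk H hH c₀ t₀ h0 => ?_⟩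
  obtain ⟨t, ht1, ht2, ht3⟩ := hV G Δ hdeg
  obtain ⟨c, hc1, hc2, hc3, hc4⟩ := HM G Δ t
    (fun v => (FIN.hv H v).image (fun u => ((c₀ u : Fin k) : ℕ))) hdeg ht1 ht3
    (fun v => card_image_le.trans (FIN.card_hv hH v))
  -- the vertex colouring
  set c' : V → ℕ := fun v => if v ∈ H.verts then ((c₀ v : Fin k) : ℕ) else c v with hc'
  have hcin : ∀ v, v ∈ H.verts → c' v = c₀ v := fun v hv => by simp [hc', hv]
  have hcout : ∀ v, v ∉ H.verts → c' v = c v := fun v hv => by simp [hc', hv]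
  have hclt : ∀ v, c' v < k := by
    intro v
    by_cases hv : v ∈ H.verts
    · rw [hcin v hv]; exact (c₀ v).2
    · rw [hcout v hv]
      exact lt_of_lt_of_le (hc1 v) (by omega)
  have hcp : ∀ v w, G.Adj v w → c' v ≠ c' w := by
    intro v w hvw
    by_cases hv : v ∈ H.verts
    · by_cases hw : w ∈ H.verts
      · rw [hcin v hv, hcin w hw]
        have h1 := h0.vertex v w (by simpa using FIN.adj_of_verts hH hv hw hvw)
        intro h2
        exact h1 (Fin.ext h2)
      · rw [hcin v hv, hcout w hw]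
        intro h2
        apply hc3 w
        rw [← h2]
        exact mem_image.2 ⟨v, FIN.mem_hv.2 ⟨hvw.symm, hv⟩, rfl⟩
    · by_cases hw : w ∈ H.verts
      · rw [hcout v hv, hcin w hw]
        intro h2
        apply hc3 v
        rw [h2]
        exact mem_image.2 ⟨w, FIN.mem_hv.2 ⟨hvw, hw⟩, rfl⟩
      · rw [hcout v hv, hcout w hw]
        exact hc2 v w hvw
  -- the edge colouring
  set t0 : Sym2 V → ℕ := fun e => ((t₀ e : Fin k) : ℕ) with ht0
  have hR : ∀ v, (nb (FIN.RG H t0 c' t ht1) v).card ≤ K + 4 := by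
    apply FIN.card_RG hH t0 c' t ht1 K ht3
    intro v
    refine le_trans (card_le_card ?_) (hc4 v)
    intro x hx
    rw [mem_filter] at hx ⊢
    refine ⟨hx.1, ?_⟩
    rw [← hcout x hx.2.1]
    exact hx.2.2
  obtain ⟨t1, h11, h12, h13⟩ := hG (FIN.RG H t0 c' t ht1) (K + 4) 4 (Δ + C + 1)
    (FIN.fe H t0 c') hR (FIN.fe_symm H t0 c') (FIN.card_fe hH t0 c')
  set tt : V → V → ℕ := fun v w => if H.Adj v w then t0 s(v, w) else
    if (FIN.RG H t0 c' t ht1).Adj v w then t1 v w else t v w with htt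
  have htts : ∀ v w, tt v w = tt w v := by
    intro v w
    simp only [htt, H.adj_comm v w, (FIN.RG H t0 c' t ht1).adj_comm v w, h11 v w, ht1 v w,
      Sym2.eq_swap (a := v) (b := w)]
  have hR1 : ∀ v w, H.Adj v w → tt v w = t0 s(v, w) := fun v w h => by simp [htt, h]
  have hR2 : ∀ v w, ¬ H.Adj v w → (FIN.RG H t0 c' t ht1).Adj v w → tt v w = t1 v w :=
    fun v w h h' => by simp [htt, h, h']
  have hR3 : ∀ v w, ¬ H.Adj v w → ¬ (FIN.RG H t0 c' t ht1).Adj v w → tt v w = t v w :=
    fun v w h h' => by simp [htt, h, h']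
  -- non-`H` edges avoid `fe`
  have hfe : ∀ v w, G.Adj v w → ¬ H.Adj v w → tt v w ∉ FIN.fe H t0 c' v w := by
    intro v w h1 h2
    by_cases h3 : (FIN.RG H t0 c' t ht1).Adj v w
    · rw [hR2 v w h2 h3]
      exact (h12 v w h3).2.2
    · rw [hR3 v w h2 h3]
      intro h4
      exact h3 ⟨h1, h2, h4⟩
  have htlt : ∀ v w, G.Adj v w → tt v w < k := by
    intro v w h1
    by_cases h2 : H.Adj v w
    · rw [hR1 v w h2]; exact (t₀ _).2
    · by_cases h3 : (FIN.RG H t0 c' t ht1).Adj v w
      · rw [hR2 v w h2 h3]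
        exact lt_of_lt_of_le (h12 v w h3).2.1 (by omega)
      · rw [hR3 v w h2 h3]
        exact lt_of_lt_of_le (ht2 v w) (by omega)
  have hkpos : 0 < k := by omega
  have hedge : ∀ u v w, G.Adj u v → G.Adj u w → v ≠ w → tt u v ≠ tt u w := by
    -- one of them in `H`
    have key : ∀ u v w, G.Adj u v → G.Adj u w → v ≠ w → H.Adj u v → tt u v ≠ tt u w := by
      intro u v w h1 h2 h3 h4 h5
      have h6 : ¬ H.Adj u w := fun h => h3 (FIN.uniq hH h4 h)
      have h7 := hfe u w h2 h6
      apply h7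
      rw [← h5, hR1 u v h4]
      unfold FIN.fe
      rw [mem_union]
      right
      rw [mem_union]
      left
      exact FIN.mem_he.2 ⟨v, h4, rfl⟩
    intro u v w h1 h2 h3
    by_cases h4 : H.Adj u v
    · exact key u v w h1 h2 h3 h4
    · by_cases h5 : H.Adj u w
      · exact (key u w v h2 h1 h3.symm h5).symm
      · by_cases h6 : (FIN.RG H t0 c' t ht1).Adj u v
        · by_cases h7 : (FIN.RG H t0 c' t ht1).Adj u w
          · rw [hR2 u v h4 h6, hR2 u w h5 h7]
            intro h8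
            exact h3 (h13 u (mem_coe.2 (FIN.mem_nb.2 h6)) (mem_coe.2 (FIN.mem_nb.2 h7)) h8)
          · rw [hR2 u v h4 h6, hR3 u w h5 h7]
            have h8 := (h12 u v h6).1
            have h9 := ht2 u w
            omega
        · by_cases h7 : (FIN.RG H t0 c' t ht1).Adj u w
          · rw [hR3 u v h4 h6, hR2 u w h5 h7]
            have h8 := (h12 u w h7).1
            have h9 := ht2 u v
            omega
          · rw [hR3 u v h4 h6, hR3 u w h5 h7]
            intro h8
            exact h3 (ht3 u (mem_coe.2 (FIN.mem_nb.2 h1)) (mem_coe.2 (FIN.mem_nb.2 h2)) h8)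
  -- final colourings
  have hmem : ∀ v w, G.Adj v w → s(v, w) ∈ G.edgeSet := fun v w h => h
  set TT : Sym2 V → ℕ := Sym2.lift ⟨tt, htts⟩ with hTT
  have hTTlt : ∀ v w, G.Adj v w → TT s(v, w) < k := htlt
  refine ⟨fun v => ⟨c' v, hclt v⟩, fun e => if h : TT e < k then ⟨TT e, h⟩ else ⟨0, hkpos⟩,
    ⟨?_, ?_, ?_⟩, ?_, ?_⟩
  · intro u v huv h
    exact hcp u v huv (by simpa using h)
  · intro u v w huv huw hvw h
    rw [dif_pos (hTTlt u v huv), dif_pos (hTTlt u w huw)] at h
    exact hedge u v w huv huw hvw (by simpa [hTT] using h)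
  · intro u v huv h
    rw [dif_pos (hTTlt u v huv)] at h
    have h1 : tt u v = c' u := by simpa [hTT] using h
    by_cases h2 : H.Adj u v
    · have h3 := h0.incidence u v (by simpa using h2)
      apply h3
      rw [hR1 u v h2, hcin u (H.edge_vert h2)] at h1
      exact Fin.ext h1
    · apply hfe u v huv h2
      rw [h1]
      unfold FIN.fe
      simp
  · intro v hv
    apply Fin.ext
    exact hcin v hv
  · intro e
    induction e using Sym2.ind with
    | _ v w =>
      intro he
      have h1 : H.Adj v w := he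
      have h2 : G.Adj v w := H.adj_sub h1
      simp only
      rw [dif_pos (hTTlt v w h2)]
      apply Fin.ext
      exact hR1 v w h1

end Pool.Agent.Work.MP_db9399_all
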