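import Pool.Agent.Work.MP_db9399_all.Interface

set_option autoImplicit false

namespace Pool.Agent.Work.MP_db9399_all

open Finset Classical

universe u

namespace DPA

section
variable {V : Type u} [Fintype V]

lemma mem_bs {blk : V → Option V} {j z : V} : z ∈ bs blk j ↔ blk z = some j := by
  simp [bs]

lemma mem_nb {G : SimpleGraph V} {v w : V} : w ∈ nb G v ↔ G.Adj v w := by
  simp [nb]

lemma mem_nb_symm {G : SimpleGraph V} {v w : V} : w ∈ nb G v ↔ v ∈ nb G w := by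
  rw [mem_nb, mem_nb, G.adj_comm]

lemma pack_mono {J : Type u} [Fintype J] {n : ℕ} {T : J → Fin n → ℝ} {Bl Bl' : Finset J}
    {W W' : ℝ} {P P' : Cfg J n → Prop} (hB : Bl ⊆ Bl') (hW : W ≤ W')
    (hP : ∀ ω, P ω → P' ω) (h : Pack T Bl W P) : Pack T Bl' W' P' := by
  obtain ⟨κ, iκ, Q, E, h1, h2, h3, h4, h5⟩ := h
  exact ⟨κ, iκ, Q, E, h1, h2, fun k p hp => hB (h3 k p hp), h4.trans hW,
    fun ω hω => hP ω (h5 ω hω)⟩

lemma pack_trivial {J : Type u} [Fintype J] {n : ℕ} (T : J → Fin n → ℝ) (Bl : Finset J) :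
    Pack T Bl 0 (fun _ : Cfg J n => True) :=
  ⟨PEmpty, inferInstance, fun k => k.elim, fun k => k.elim, fun k => k.elim, fun k => k.elim,
    fun k => k.elim, by simp, fun _ _ => trivial⟩

variable (X : DCtx V)

lemma pos_eq {z j : V} (h : X.blk z = some j) : X.pos z = (j, X.idx z) := by
  simp [DCtx.pos, h]

lemma mem_tch {x : V} {p : V × Fin (X.Δ + 1)} : p ∈ X.tch x ↔
    ∃ z ∈ nb X.G x, X.blk z = some p.1 ∧ X.idx z = p.2 := by
  unfold DCtx.tch
  rw [mem_image]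
  constructor
  · rintro ⟨z, hz, rfl⟩
    unfold dn at hz
    rw [mem_filter] at hz
    obtain ⟨j, hj⟩ := Option.ne_none_iff_exists'.1 hz.2
    refine ⟨z, hz.1, ?_, ?_⟩ <;> rw [pos_eq X hj]
    exact hj
  · rintro ⟨z, hz, h1, h2⟩
    refine ⟨z, ?_, ?_⟩
    · unfold dn
      rw [mem_filter]
      exact ⟨hz, by rw [h1]; simp⟩
    · rw [pos_eq X h1, h2]

lemma mem_tb {x j : V} : j ∈ X.tb x ↔ ∃ z ∈ nb X.G x, X.blk z = some j := by
  unfold DCtx.tb
  rw [mem_image]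
  constructor
  · rintro ⟨p, hp, rfl⟩
    obtain ⟨z, hz, h1, _⟩ := (mem_tch X).1 hp
    exact ⟨z, hz, h1⟩
  · rintro ⟨z, hz, h1⟩
    exact ⟨(j, X.idx z), (mem_tch X).2 ⟨z, hz, h1, rfl⟩, rfl⟩

lemma ex_nonneg (j : V) (s : Fin (X.Δ + 1)) : 0 ≤ X.ex j s :=
  sum_nonneg fun _ _ => Nat.cast_nonneg _

lemma ex_le (j : V) (s : Fin (X.Δ + 1)) : X.ex j s ≤ 4 / 10 ^ 6 * X.Δ := by
  unfold DCtx.ex
  have h1 : ∀ z ∈ (bs X.blk j).filter (fun z => X.idx z = s),
      ((nb X.G z \ bs X.blk j).card : ℝ) ≤ 2 * (1 / 10 ^ 6) * X.Δ := fun z hz =>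
    X.dec.ext j z (mem_filter.1 hz).1
  have h2 := sum_le_card_nsmul _ _ _ h1
  rw [nsmul_eq_mul] at h2
  have h3 : (((bs X.blk j).filter (fun z => X.idx z = s)).card : ℝ) ≤ 2 := by
    exact_mod_cast X.cls2 j s
  have h4 : (0 : ℝ) ≤ 2 * (1 / 10 ^ 6) * X.Δ := by positivity
  have h5 := mul_le_mul_of_nonneg_right h3 h4
  linarith

lemma T_nonneg (j : V) (s : Fin (X.Δ + 1)) : 0 ≤ X.T j s := by
  unfold DCtx.T
  have := ex_nonneg X j s
  positivity

lemma T_le (j : V) (s : Fin (X.Δ + 1)) : X.T j s ≤ 1 / 4 := by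
  unfold DCtx.T
  have h1 := ex_le X j s
  have h2 : (0 : ℝ) < (X.Δ : ℝ) + 1 := by positivity
  have h3 : 3 * X.ex j s / ((X.Δ : ℝ) + 1) ≤ 12 / 10 ^ 6 := by
    rw [div_le_iff₀ h2]
    have : (0 : ℝ) ≤ X.Δ := Nat.cast_nonneg _
    nlinarith
  have h4 : (12 : ℝ) / 10 ^ 6 + 1 / 10 ^ 12 ≤ 1 / 4 := by norm_num
  linarith

/-- number of vertices touching a block -/
lemma card_touch (j : V) : ((univ.filter (fun x => j ∈ X.tb x)).card : ℝ) ≤
    2 * (X.Δ : ℝ) ^ 2 := by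
  have hsub : univ.filter (fun x => j ∈ X.tb x) ⊆ (bs X.blk j).biUnion (fun z => nb X.G z) := by
    intro x hx
    rw [mem_filter] at hx
    obtain ⟨z, hz, h1⟩ := (mem_tb X).1 hx.2
    exact mem_biUnion.2 ⟨z, mem_bs.2 h1, mem_nb_symm.1 hz⟩
  have h1 : (univ.filter (fun x => j ∈ X.tb x)).card ≤ (bs X.blk j).card * X.Δ :=
    (card_le_card hsub).trans (card_biUnion_le_card_mul _ _ _ fun z _ => X.deg z)
  have h2 : ((univ.filter (fun x => j ∈ X.tb x)).card : ℝ) ≤ ((bs X.blk j).card : ℝ) * X.Δ := by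
    exact_mod_cast h1
  have h3 := X.dec.size j
  have h4 : (0 : ℝ) ≤ X.Δ := Nat.cast_nonneg _
  have h5 : ((bs X.blk j).card : ℝ) ≤ 2 * X.Δ := by nlinarith
  nlinarith

/-- double counting of the edges between a block and sparse neighbours -/
lemma bad_block (x i : V) :
    (((sn X.G X.blk x).filter (fun w => ¬ ((nb X.G w ∩ bs X.blk i).card : ℝ) ≤
      X.Δ / 1000)).card : ℝ) * (X.Δ / 1000) ≤ 3 * (1 / 10 ^ 13) * (X.Δ : ℝ) ^ 2 := by
  set A := (sn X.G X.blk x).filter (fun w => ¬ ((nb X.G w ∩ bs X.blk i).card : ℝ) ≤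
      X.Δ / 1000) with hA
  have h1 : (A.card : ℝ) * (X.Δ / 1000) ≤ ∑ w ∈ A, ((nb X.G w ∩ bs X.blk i).card : ℝ) := by
    rw [← nsmul_eq_mul]
    apply card_nsmul_le_sum
    intro w hw
    rw [hA, mem_filter] at hw
    exact (not_le.1 hw.2).le
  have h2 : ∑ w ∈ A, ((nb X.G w ∩ bs X.blk i).card : ℝ) ≤
      ∑ z ∈ bs X.blk i, ((nb X.G z \ bs X.blk i).card : ℝ) := by
    have e1 : ∑ w ∈ A, (nb X.G w ∩ bs X.blk i).card =
        ∑ z ∈ bs X.blk i, (A.filter (fun w => X.G.Adj w z)).card := by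
      have h := sum_card_bipartiteAbove_eq_sum_card_bipartiteBelow (s := A) (t := bs X.blk i)
        (fun w z => X.G.Adj w z)
      have h' : ∑ w ∈ A, (nb X.G w ∩ bs X.blk i).card =
          ∑ w ∈ A, (bipartiteAbove (fun w z => X.G.Adj w z) (bs X.blk i) w).card := by
        apply sum_congr rfl
        intro w _
        congr 1
        ext z
        simp only [mem_inter, mem_nb, bipartiteAbove, mem_filter]
        tauto
      rw [h', h]
      rfl
    have e2 : ∑ z ∈ bs X.blk i, (A.filter (fun w => X.G.Adj w z)).card ≤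
        ∑ z ∈ bs X.blk i, (nb X.G z \ bs X.blk i).card := by
      apply sum_le_sum
      intro z _
      apply card_le_card
      intro w hw
      rw [mem_filter] at hw
      rw [mem_sdiff, mem_nb]
      refine ⟨hw.2.symm, fun hb => ?_⟩
      have h3 := (mem_filter.1 hw.1).1
      unfold sn at h3
      rw [mem_filter] at h3
      rw [mem_bs] at hb
      rw [h3.2] at hb
      exact absurd hb (by simp)
    have e3 := e1.le.trans e2
    exact_mod_cast e3
  exact (h1.trans h2).trans (X.dec.edges i)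

lemma dn_le_tch (x : V) : ((dn X.G X.blk x).card : ℝ) ≤ 2 * ((X.tch x).card : ℝ) := by
  have h : (dn X.G X.blk x).card ≤ 2 * (X.tch x).card := by
    unfold DCtx.tch
    apply card_le_mul_card_image
    intro p hp
    rw [mem_image] at hp
    obtain ⟨z0, hz0, hp0⟩ := hp
    refine le_trans (card_le_card ?_) (X.cls2 p.1 p.2)
    intro z hz
    rw [mem_filter] at hz
    have hz1 := hz.1
    unfold dn at hz1
    rw [mem_filter] at hz1
    obtain ⟨j, hj⟩ := Option.ne_none_iff_exists'.1 hz1.2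
    have h2 := hz.2
    rw [pos_eq X hj] at h2
    rw [← h2, mem_filter, mem_bs]
    exact ⟨hj, rfl⟩
  exact_mod_cast h

lemma touch_pos (x : V) (p : V × Fin (X.Δ + 1)) :
    (((sn X.G X.blk x).filter (fun w => p ∈ X.tch w)).card : ℝ) ≤ 4 / 10 ^ 6 * X.Δ := by
  have hsub : (sn X.G X.blk x).filter (fun w => p ∈ X.tch w) ⊆
      ((bs X.blk p.1).filter (fun z => X.idx z = p.2)).biUnion
        (fun z => nb X.G z \ bs X.blk p.1) := by
    intro w hw
    rw [mem_filter] at hw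
    obtain ⟨z, hz, h1, h2⟩ := (mem_tch X).1 hw.2
    refine mem_biUnion.2 ⟨z, mem_filter.2 ⟨mem_bs.2 h1, h2⟩, ?_⟩
    rw [mem_sdiff]
    refine ⟨mem_nb_symm.1 hz, fun hb => ?_⟩
    have h3 := hw.1
    unfold sn at h3
    rw [mem_filter] at h3
    rw [mem_bs, h3.2] at hb
    exact absurd hb (by simp)
  have h1 : (((sn X.G X.blk x).filter (fun w => p ∈ X.tch w)).card : ℝ) ≤ X.ex p.1 p.2 := by
    unfold DCtx.ex
    have := (card_le_card hsub).trans card_biUnion_le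
    exact_mod_cast this
  exact h1.trans (ex_le X _ _)

lemma bad_touch (x : V) :
    (((sn X.G X.blk x).filter (fun w => ((X.tch x).card : ℝ) / 2 <
      ((X.tch x ∩ X.tch w).card : ℝ))).card : ℝ) * (((X.tch x).card : ℝ) / 2) ≤
      (X.tch x).card * (4 / 10 ^ 6 * X.Δ) := by
  set A := (sn X.G X.blk x).filter (fun w => ((X.tch x).card : ℝ) / 2 <
      ((X.tch x ∩ X.tch w).card : ℝ)) with hA
  have h1 : (A.card : ℝ) * (((X.tch x).card : ℝ) / 2) ≤
      ∑ w ∈ A, ((X.tch x ∩ X.tch w).card : ℝ) := by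
    rw [← nsmul_eq_mul]
    apply card_nsmul_le_sum
    intro w hw
    rw [hA, mem_filter] at hw
    exact hw.2.le
  have h2 : ∑ w ∈ A, ((X.tch x ∩ X.tch w).card : ℝ) ≤
      ∑ w ∈ sn X.G X.blk x, ((X.tch x ∩ X.tch w).card : ℝ) :=
    sum_le_sum_of_subset_of_nonneg (filter_subset _ _) fun _ _ _ => Nat.cast_nonneg _
  have h3 : ∑ w ∈ sn X.G X.blk x, ((X.tch x ∩ X.tch w).card : ℝ) =
      ∑ p ∈ X.tch x, (((sn X.G X.blk x).filter (fun w => p ∈ X.tch w)).card : ℝ) := by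
    have h := sum_card_bipartiteAbove_eq_sum_card_bipartiteBelow (s := sn X.G X.blk x)
      (t := X.tch x) (fun w p => p ∈ X.tch w)
    have h' : ∑ w ∈ sn X.G X.blk x, (X.tch x ∩ X.tch w).card =
        ∑ w ∈ sn X.G X.blk x,
          (bipartiteAbove (fun w p => p ∈ X.tch w) (X.tch x) w).card := by
      apply sum_congr rfl
      intro w _
      congr 1
    have h'' := h'.trans h
    unfold bipartiteBelow at h''
    exact_mod_cast h''
  have h4 : ∑ p ∈ X.tch x, (((sn X.G X.blk x).filter (fun w => p ∈ X.tch w)).card : ℝ) ≤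
      (X.tch x).card * (4 / 10 ^ 6 * X.Δ) := by
    rw [← nsmul_eq_mul]
    exact sum_le_card_nsmul _ _ _ fun p _ => touch_pos X x p
  linarith

/-- number of relevant pairs touching a block -/
lemma card_pairs (hΔ : 1 ≤ X.Δ) (j : V) :
    ((univ.filter (fun r : V × V => (r.2 = r.1 ∨ r.2 ∈ nb X.G r.1) ∧
      j ∈ X.tb r.1 ∪ X.tb r.2)).card : ℝ) ≤ 8 * (X.Δ : ℝ) ^ 3 := by
  set A := univ.filter (fun x => j ∈ X.tb x) with hA
  have hsub : univ.filter (fun r : V × V => (r.2 = r.1 ∨ r.2 ∈ nb X.G r.1) ∧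
      j ∈ X.tb r.1 ∪ X.tb r.2) ⊆
      (A.biUnion (fun x => (insert x (nb X.G x)).image (fun w => (x, w)))) ∪
      (A.biUnion (fun w => (insert w (nb X.G w)).image (fun x => (x, w)))) := by
    rintro ⟨x, w⟩ hr
    rw [mem_filter] at hr
    obtain ⟨-, h1, h2⟩ := hr
    simp only at h1 h2
    rw [mem_union] at h2
    rw [mem_union]
    rcases h2 with h2 | h2
    · left
      refine mem_biUnion.2 ⟨x, by rw [hA, mem_filter]; exact ⟨mem_univ _, h2⟩, ?_⟩
      refine mem_image.2 ⟨w, ?_, rfl⟩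
      rw [mem_insert]
      exact h1
    · right
      refine mem_biUnion.2 ⟨w, by rw [hA, mem_filter]; exact ⟨mem_univ _, h2⟩, ?_⟩
      refine mem_image.2 ⟨x, ?_, rfl⟩
      rw [mem_insert]
      rcases h1 with h1 | h1
      · exact Or.inl h1.symm
      · exact Or.inr (mem_nb_symm.1 h1)
  have hc : ∀ x, (insert x (nb X.G x)).card ≤ X.Δ + 1 := fun x =>
    (card_insert_le _ _).trans (Nat.succ_le_succ (X.deg x))
  have h1 : (univ.filter (fun r : V × V => (r.2 = r.1 ∨ r.2 ∈ nb X.G r.1) ∧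
      j ∈ X.tb r.1 ∪ X.tb r.2)).card ≤ A.card * (X.Δ + 1) + A.card * (X.Δ + 1) := by
    refine (card_le_card hsub).trans ((card_union_le _ _).trans (Nat.add_le_add ?_ ?_))
    · exact card_biUnion_le_card_mul _ _ _ fun x _ => card_image_le.trans (hc x)
    · exact card_biUnion_le_card_mul _ _ _ fun x _ => card_image_le.trans (hc x)
  have h2 : ((univ.filter (fun r : V × V => (r.2 = r.1 ∨ r.2 ∈ nb X.G r.1) ∧
      j ∈ X.tb r.1 ∪ X.tb r.2)).card : ℝ) ≤ A.card * (X.Δ + 1) + A.card * (X.Δ + 1) := by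
    exact_mod_cast h1
  have h3 : (A.card : ℝ) ≤ 2 * (X.Δ : ℝ) ^ 2 := card_touch X j
  have h4 : (1 : ℝ) ≤ X.Δ := by exact_mod_cast hΔ
  have h5 : (A.card : ℝ) * (X.Δ + 1) ≤ 2 * (X.Δ : ℝ) ^ 2 * (2 * X.Δ) := by
    apply mul_le_mul h3 (by linarith) (by positivity) (by positivity)
  nlinarith

lemma exp_small {D : ℕ} (hD : 10 ^ 130 ≤ D) :
    8 * (D : ℝ) ^ 3 * Real.exp (-(D : ℝ) / 10 ^ 28) ≤ 1 / 10 ^ 13 := by
  have hD' : (10 : ℝ) ^ 130 ≤ D := by exact_mod_cast hD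
  have hpos : (0 : ℝ) < D := lt_of_lt_of_le (by positivity) hD'
  have h1 := Real.pow_div_factorial_le_exp ((D : ℝ) / 10 ^ 28) (by positivity) 4
  have h2 : Real.exp (-(D : ℝ) / 10 ^ 28) = 1 / Real.exp ((D : ℝ) / 10 ^ 28) := by
    rw [neg_div, Real.exp_neg, one_div]
  rw [h2, mul_one_div, div_le_div_iff₀ (Real.exp_pos _) (by positivity)]
  have h3 : ((D : ℝ) / 10 ^ 28) ^ 4 / (Nat.factorial 4 : ℕ) = (D : ℝ) ^ 3 * D / (24 * 10 ^ 112) := by
    have : (Nat.factorial 4 : ℕ) = 24 := by decide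
    rw [this]
    push_cast
    rw [div_pow]
    field_simp
  rw [h3] at h1
  rw [one_mul]
  refine le_trans ?_ h1
  rw [le_div_iff₀ (by positivity)]
  have h5 : 8 * (D : ℝ) ^ 3 * 10 ^ 13 * (24 * 10 ^ 112) = (D : ℝ) ^ 3 * (192 * 10 ^ 125) := by
    ring
  rw [h5]
  apply mul_le_mul_of_nonneg_left _ (by positivity)
  refine le_trans ?_ hD'
  norm_num

/-- first alternative: repeated colours -/
def alt1 (x : V) (ω : Cfg V (X.Δ + 1)) : Prop :=
  (((dn X.G X.blk x).image (X.vc ω)).card : ℝ) + X.Δ / 10 ^ 29 ≤ ((dn X.G X.blk x).card : ℝ)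

/-- second alternative: colours free at `w` -/
def alt2 (x w : V) (ω : Cfg V (X.Δ + 1)) : Prop :=
  (X.Δ : ℝ) / 10 ^ 29 ≤ ((((dn X.G X.blk x).image (X.vc ω)) \
    ((dn X.G X.blk w).image (X.vc ω))).card : ℝ)

def c3 (x : V) : Prop :=
  X.blk x = none ∧ (X.Δ : ℝ) / 100 ≤ ((dn X.G X.blk x).card : ℝ) ∧
    ∀ i, ((nb X.G x ∩ bs X.blk i).card : ℝ) + X.Δ / (8 * 10 ^ 6) ≤
      ((dn X.G X.blk x).card : ℝ)

def cB (x w : V) : Prop :=
  X.blk x = none ∧ X.blk w = none ∧ ∃ i, (X.Δ : ℝ) / 200 ≤ ((nb X.G x ∩ bs X.blk i).card : ℝ) ∧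
    ((nb X.G w ∩ bs X.blk i).card : ℝ) ≤ X.Δ / 1000

def cS (x w : V) : Prop :=
  X.blk x = none ∧ X.blk w = none ∧ ((dn X.G X.blk w).card : ℝ) < X.Δ / 100 ∧
    (X.Δ : ℝ) / (16 * 10 ^ 26) ≤ ((X.tch x \ X.tch w).card : ℝ)

def good (r : V × V) : Prop :=
  (r.2 = r.1 ∧ c3 X r.1) ∨ (r.2 ∈ nb X.G r.1 ∧ (cB X r.1 r.2 ∨ cS X r.1 r.2))

/-- the outcome of the local lemma -/
lemma main (hL : Stmt_LLLK.{u}) (hS : Stmt_DSM.{u}) (h3 : Stmt_DE3.{u}) (hB : Stmt_DEB.{u})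
    (hE : Stmt_DES.{u}) (k h : ℕ) : ∃ Δ0 : ℕ, 10 ^ 130 ≤ Δ0 ∧
    ∀ {V : Type u} [Fintype V] (X : DCtx V) (t : V → V → ℕ)
    (F : V → Finset ℕ), X.h = h → Δ0 ≤ X.Δ → (∀ v w, t v w = t w v) →
    (∀ v, Set.InjOn (t v) (nb X.G v : Set V)) → (∀ v, (F v).card ≤ k) →
    (∀ j a, (((bs X.blk j).filter (fun z => X.e j a ∈ F z)).card : ℝ) ≤ X.Δ / 10 ^ 13) →
    ∃ ω : Cfg V (X.Δ + 1),
        (∀ z z', X.blk z ≠ none → X.blk z' ≠ none → X.G.Adj z z' → X.vc ω z ≠ X.vc ω z') ∧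
        (∀ z, X.blk z ≠ none → X.vc ω z ∉ F z) ∧
        (∀ v, ((dn X.G X.blk v).filter (fun x => X.vc ω x = t v x)).card ≤ 20) ∧
        ∀ r : V × V, good X r → alt1 X r.1 ω ∨ (r.2 ≠ r.1 ∧ alt2 X r.1 r.2 ω) := by
  obtain ⟨Δs, HS⟩ := hS k
  obtain ⟨Δ3, H3⟩ := h3 h
  obtain ⟨ΔB, HB⟩ := hB
  obtain ⟨ΔE, HE⟩ := hE
  refine ⟨max (max Δs Δ3) (max (max ΔB ΔE) (10 ^ 130)),
    le_trans (le_max_right _ _) (le_max_right _ _),
    fun {V} _ X t F hh hΔ hts hti hF hheavy => ?_⟩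
  have hΔs : Δs ≤ X.Δ := le_trans (le_trans (le_max_left _ _) (le_max_left _ _)) hΔ
  have hΔ3 : Δ3 ≤ X.Δ := le_trans (le_trans (le_max_right _ _) (le_max_left _ _)) hΔ
  have hΔB : ΔB ≤ X.Δ := le_trans (le_trans (le_trans (le_max_left _ _) (le_max_left _ _))
    (le_max_right _ _)) hΔ
  have hΔE : ΔE ≤ X.Δ := le_trans (le_trans (le_trans (le_max_right _ _) (le_max_left _ _))
    (le_max_right _ _)) hΔ
  have hΔ4 : 10 ^ 130 ≤ X.Δ := le_trans (le_trans (le_max_right _ _) (le_max_right _ _)) hΔ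
  have hΔpos : 1 ≤ X.Δ := le_trans (Nat.one_le_pow _ _ (by norm_num)) hΔ4
  obtain ⟨ι, iι, B, hB1, hB2, hB3⟩ := HS X t F hΔs hts hti hF hheavy
  set W0 : ℝ := Real.exp (-(X.Δ : ℝ) / 10 ^ 28) with hW0
  have hpack : ∀ r : V × V, Pack X.T (if good X r then X.tb r.1 ∪ X.tb r.2 else ∅)
      (if good X r then W0 else 0)
      (fun ω => good X r → alt1 X r.1 ω ∨ (r.2 ≠ r.1 ∧ alt2 X r.1 r.2 ω)) := by
    rintro ⟨x, w⟩
    by_cases hg : good X (x, w)
    · rw [if_pos hg, if_pos hg]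
      rcases id hg with ⟨h1, h2⟩ | ⟨h1, h2 | h2⟩
      · simp only at h1
        subst h1
        refine pack_mono subset_union_left le_rfl ?_
          (H3 X w hh hΔ3 h2.1 h2.2.1 h2.2.2)
        intro ω hω _
        exact Or.inl hω
      · obtain ⟨e1, e2, i, e3, e4⟩ := h2
        refine pack_mono (subset_refl _) le_rfl ?_ (HB X x w i hΔB e1 e2 e3 e4)
        intro ω hω _
        refine Or.inr ⟨?_, hω⟩
        exact (mem_nb.1 h1).ne'
      · obtain ⟨e1, e2, e3, e4⟩ := h2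
        refine pack_mono (subset_refl _) le_rfl ?_ (HE X x w hΔE e1 e2 e3 e4)
        intro ω hω _
        rcases hω with hω | hω
        · exact Or.inl hω
        · exact Or.inr ⟨(mem_nb.1 h1).ne', hω⟩
    · rw [if_neg hg, if_neg hg]
      refine pack_mono (subset_refl _) le_rfl ?_ (pack_trivial _ _)
      intro ω _ hg'
      exact (hg hg').elim
  have hsum : ∀ j, ∑ r ∈ univ.filter (fun r : V × V =>
      j ∈ (if good X r then X.tb r.1 ∪ X.tb r.2 else ∅)), (if good X r then W0 else 0) ≤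
      1 / 10 ^ 13 := by
    intro j
    have hW0pos : 0 ≤ W0 := (Real.exp_pos _).le
    have hsub : univ.filter (fun r : V × V =>
        j ∈ (if good X r then X.tb r.1 ∪ X.tb r.2 else ∅)) ⊆
        univ.filter (fun r : V × V => (r.2 = r.1 ∨ r.2 ∈ nb X.G r.1) ∧
        j ∈ X.tb r.1 ∪ X.tb r.2) := by
      intro r hr
      rw [mem_filter] at hr ⊢
      by_cases hg : good X r
      · rw [if_pos hg] at hr
        refine ⟨mem_univ _, ?_, hr.2⟩
        rcases id hg with ⟨h1, h2⟩ | ⟨h1, h2⟩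
        · exact Or.inl h1
        · exact Or.inr h1
      · rw [if_neg hg] at hr
        exact absurd hr.2 (notMem_empty _)
    calc ∑ r ∈ univ.filter (fun r : V × V =>
          j ∈ (if good X r then X.tb r.1 ∪ X.tb r.2 else ∅)), (if good X r then W0 else 0)
        ≤ ∑ r ∈ univ.filter (fun r : V × V =>
          j ∈ (if good X r then X.tb r.1 ∪ X.tb r.2 else ∅)), W0 := by
          apply sum_le_sum
          intro r _
          split_ifs
          · exact le_rfl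
          · exact hW0pos
      _ = ((univ.filter (fun r : V × V =>
          j ∈ (if good X r then X.tb r.1 ∪ X.tb r.2 else ∅))).card : ℝ) * W0 := by
          rw [sum_const, nsmul_eq_mul]
      _ ≤ (8 * (X.Δ : ℝ) ^ 3) * W0 := by
          apply mul_le_mul_of_nonneg_right _ hW0pos
          have h1 := card_pairs X hΔpos j
          have h2 : ((univ.filter (fun r : V × V =>
            j ∈ (if good X r then X.tb r.1 ∪ X.tb r.2 else ∅))).card : ℝ) ≤
            ((univ.filter (fun r : V × V => (r.2 = r.1 ∨ r.2 ∈ nb X.G r.1) ∧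
              j ∈ X.tb r.1 ∪ X.tb r.2)).card : ℝ) := by
            exact_mod_cast card_le_card hsub
          exact h2.trans h1
      _ ≤ 1 / 10 ^ 13 := exp_small hΔ4
  obtain ⟨ω, h1, h2⟩ := hL V (X.Δ + 1) ι (V × V) B X.T
    (fun r => if good X r then X.tb r.1 ∪ X.tb r.2 else ∅)
    (fun r => if good X r then W0 else 0)
    (fun r ω => good X r → alt1 X r.1 ω ∨ (r.2 ≠ r.1 ∧ alt2 X r.1 r.2 ω))
    hB1 (T_nonneg X) (T_le X) hpack (by
      intro j s a
      have e1 := hB2 j s a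
      have e2 := hsum j
      have e3 := add_le_add e1 e2
      refine e3.trans (le_of_eq ?_)
      ring)
  obtain ⟨g1, g2, g3⟩ := hB3 ω h1
  exact ⟨ω, g1, g2, g3, h2⟩

lemma card_dn_add_sn (G : SimpleGraph V) (blk : V → Option V) (x : V) :
    ((dn G blk x).card : ℝ) + ((sn G blk x).card : ℝ) = ((nb G x).card : ℝ) := by
  have := card_filter_add_card_filter_not (s := nb G x) (fun z => blk z ≠ none)
  unfold dn sn
  have h2 : (nb G x).filter (fun z => ¬ (blk z ≠ none)) = (nb G x).filter (fun z => blk z = none) := by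
    apply filter_congr
    intro z _
    exact not_not
  rw [h2] at this
  exact_mod_cast this

lemma count_le (x : V) (ω : Cfg V (X.Δ + 1))
    (hm : ∀ r : V × V, good X r → alt1 X r.1 ω ∨ (r.2 ≠ r.1 ∧ alt2 X r.1 r.2 ω))
    (h1 : ¬ alt1 X x ω) (B : Finset V)
    (hB : ∀ w ∈ sn X.G X.blk x, w ∉ B → cB X x w ∨ cS X x w) (a : ℝ)
    (ha : a + (B.card : ℝ) ≤ ((sn X.G X.blk x).card : ℝ)) :
    a ≤ (((sn X.G X.blk x).filter (fun w => (X.Δ : ℝ) / 10 ^ 29 ≤
      ((((dn X.G X.blk x).image (X.vc ω)) \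
        ((dn X.G X.blk w).image (X.vc ω))).card : ℝ))).card : ℝ) := by
  have hsub : sn X.G X.blk x ⊆ ((sn X.G X.blk x).filter (fun w => (X.Δ : ℝ) / 10 ^ 29 ≤
      ((((dn X.G X.blk x).image (X.vc ω)) \
        ((dn X.G X.blk w).image (X.vc ω))).card : ℝ))) ∪ B := by
    intro w hw
    rw [mem_union]
    by_cases hwB : w ∈ B
    · exact Or.inr hwB
    · left
      rw [mem_filter]
      refine ⟨hw, ?_⟩
      have hnb : w ∈ nb X.G x := by
        have := hw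
        unfold sn at this
        exact (mem_filter.1 this).1
      rcases hm (x, w) (Or.inr ⟨hnb, hB w hw hwB⟩) with h | h
      · exact absurd h h1
      · exact h.2
  have h2 := (card_le_card hsub).trans (card_union_le _ _)
  have h3 : ((sn X.G X.blk x).card : ℝ) ≤ (((sn X.G X.blk x).filter
      (fun w => (X.Δ : ℝ) / 10 ^ 29 ≤ ((((dn X.G X.blk x).image (X.vc ω)) \
        ((dn X.G X.blk w).image (X.vc ω))).card : ℝ))).card : ℝ) + (B.card : ℝ) := by
    exact_mod_cast h2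
  linarith

lemma sb_case (hΔ : 1 ≤ X.Δ) (x : V) (ω : Cfg V (X.Δ + 1))
    (hm : ∀ r : V × V, good X r → alt1 X r.1 ω ∨ (r.2 ≠ r.1 ∧ alt2 X r.1 r.2 ω))
    (hx : X.blk x = none) (hdeg : (1 - 1 / 10 ^ 26) * (X.Δ : ℝ) < ((nb X.G x).card : ℝ))
    (hSb : (X.Δ : ℝ) / 100 ≤ ((dn X.G X.blk x).card : ℝ)) (h1 : ¬ alt1 X x ω) :
    (X.Δ : ℝ) / 10 ^ 29 ≤ (((sn X.G X.blk x).filter (fun w => (X.Δ : ℝ) / 10 ^ 29 ≤
      ((((dn X.G X.blk x).image (X.vc ω)) \
        ((dn X.G X.blk w).image (X.vc ω))).card : ℝ))).card : ℝ) := by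
  have hpos : (1 : ℝ) ≤ X.Δ := by exact_mod_cast hΔ
  have hsum := card_dn_add_sn X.G X.blk x
  by_cases hc : ∀ i, ((nb X.G x ∩ bs X.blk i).card : ℝ) + X.Δ / (8 * 10 ^ 6) ≤
      ((dn X.G X.blk x).card : ℝ)
  · rcases hm (x, x) (Or.inl ⟨rfl, hx, hSb, hc⟩) with h | h
    · exact absurd h h1
    · exact absurd rfl h.1
  · push Not at hc
    obtain ⟨i, hi⟩ := hc
    have hout := X.dec.out i x (by rw [mem_bs, hx]; simp)
    set D : ℝ := (X.Δ : ℝ) with hD
    have e1 : D / 200 ≤ ((nb X.G x ∩ bs X.blk i).card : ℝ) := by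
      have : D / 200 + D / (8 * 10 ^ 6) ≤ D / 100 := by
        have : (0 : ℝ) ≤ D := by linarith
        linarith
      linarith
    have hbad := bad_block X x i
    set B := (sn X.G X.blk x).filter (fun w => ¬ ((nb X.G w ∩ bs X.blk i).card : ℝ) ≤
      X.Δ / 1000) with hBdef
    have hBc : (B.card : ℝ) ≤ 3 / 10 ^ 10 * D := by
      have h2 : (B.card : ℝ) * (D / 1000) ≤ (3 / 10 ^ 10 * D) * (D / 1000) := by
        refine hbad.trans (le_of_eq ?_)
        ring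
      exact le_of_mul_le_mul_right h2 (by linarith)
    apply count_le X x ω hm h1 B
    · intro w hw hwB
      left
      refine ⟨hx, ?_, i, e1, ?_⟩
      · have := hw
        unfold sn at this
        exact (mem_filter.1 this).2
      · by_contra hcon
        exact hwB (mem_filter.2 ⟨hw, hcon⟩)
    · linarith

lemma ns_case (hΔ : 1 ≤ X.Δ) (x : V) (ω : Cfg V (X.Δ + 1))
    (hm : ∀ r : V × V, good X r → alt1 X r.1 ω ∨ (r.2 ≠ r.1 ∧ alt2 X r.1 r.2 ω))
    (hx : X.blk x = none) (hdeg : (1 - 1 / 10 ^ 26) * (X.Δ : ℝ) < ((nb X.G x).card : ℝ))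
    (hnSb : ((dn X.G X.blk x).card : ℝ) < (X.Δ : ℝ) / 100)
    (hdn : (X.Δ : ℝ) / (4 * 10 ^ 26) ≤ ((dn X.G X.blk x).card : ℝ))
    (hsb : ((sbn X.G X.Δ X.blk x).card : ℝ) < X.Δ / (8 * 10 ^ 26)) (h1 : ¬ alt1 X x ω) :
    (X.Δ : ℝ) / 10 ^ 29 ≤ (((sn X.G X.blk x).filter (fun w => (X.Δ : ℝ) / 10 ^ 29 ≤
      ((((dn X.G X.blk x).image (X.vc ω)) \
        ((dn X.G X.blk w).image (X.vc ω))).card : ℝ))).card : ℝ) := by
  have hpos : (1 : ℝ) ≤ X.Δ := by exact_mod_cast hΔ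
  have hsum := card_dn_add_sn X.G X.blk x
  have ht := dn_le_tch X x
  have hbad := bad_touch X x
  set D : ℝ := (X.Δ : ℝ) with hD
  set A := (sn X.G X.blk x).filter (fun w => ((X.tch x).card : ℝ) / 2 <
      ((X.tch x ∩ X.tch w).card : ℝ)) with hA
  have htch : D / (8 * 10 ^ 26) ≤ ((X.tch x).card : ℝ) := by
    have : D / (4 * 10 ^ 26) = 2 * (D / (8 * 10 ^ 26)) := by ring
    linarith
  have htpos : (0 : ℝ) < ((X.tch x).card : ℝ) := by
    refine lt_of_lt_of_le ?_ htch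
    positivity
  have hAc : (A.card : ℝ) ≤ 8 / 10 ^ 6 * D := by
    have h2 : (A.card : ℝ) * (((X.tch x).card : ℝ) / 2) ≤
        (8 / 10 ^ 6 * D) * (((X.tch x).card : ℝ) / 2) := by
      refine hbad.trans (le_of_eq ?_)
      ring
    exact le_of_mul_le_mul_right h2 (by linarith)
  apply count_le X x ω hm h1 (A ∪ sbn X.G X.Δ X.blk x)
  · intro w hw hwB
    rw [mem_union, not_or] at hwB
    right
    have hw' := hw
    unfold sn at hw'
    rw [mem_filter] at hw'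
    refine ⟨hx, hw'.2, ?_, ?_⟩
    · by_contra hcon
      apply hwB.2
      unfold sbn
      rw [mem_filter]
      exact ⟨hw'.1, hw'.2, not_lt.1 hcon⟩
    · have h3 : ((X.tch x ∩ X.tch w).card : ℝ) ≤ ((X.tch x).card : ℝ) / 2 := by
        by_contra hcon
        exact hwB.1 (mem_filter.2 ⟨hw, not_le.1 hcon⟩)
      have h4 : ((X.tch x \ X.tch w).card : ℝ) + ((X.tch x ∩ X.tch w).card : ℝ) =
          ((X.tch x).card : ℝ) := by
        exact_mod_cast card_sdiff_add_card_inter (X.tch x) (X.tch w)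
      have h5 : D / (16 * 10 ^ 26) = (D / (8 * 10 ^ 26)) / 2 := by ring
      rw [h5]
      linarith
  · have h6 : ((A ∪ sbn X.G X.Δ X.blk x).card : ℝ) ≤ (A.card : ℝ) +
        ((sbn X.G X.Δ X.blk x).card : ℝ) := by
      exact_mod_cast card_union_le _ _
    linarith

end

end DPA

/-- DPH: the dense phase. -/
theorem stmt_DPH (hL : Stmt_LLLK.{u}) (hS : Stmt_DSM.{u}) (h3 : Stmt_DE3.{u})
    (hB : Stmt_DEB.{u}) (hE : Stmt_DES.{u}) : Stmt_DPH.{u} := by
  intro k h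
  obtain ⟨Δ0, h0, H⟩ := DPA.main hL hS h3 hB hE k h
  refine ⟨Δ0, fun {V} _ X t F hh hΔ hts hti hF hheavy => ?_⟩
  obtain ⟨ω, g1, g2, g3, g4⟩ := H X t F hh hΔ hts hti hF hheavy
  have hΔ1 : 1 ≤ X.Δ := le_trans (Nat.one_le_pow _ _ (by norm_num)) (h0.trans hΔ)
  refine ⟨X.vc ω, fun z _ => ?_, g1, g2, g3, ?_⟩
  · have := X.elt (X.pos z).1 (ω (X.pos z).1 (X.pos z).2)
    rw [hh] at this
    exact this
  · intro x hx hdeg hcase
    by_cases ha : DPA.alt1 X x ω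
    · exact Or.inl ha
    · right
      rcases hcase with hc | ⟨hc1, hc2⟩
      · exact DPA.sb_case X hΔ1 x ω g4 hx hdeg hc.2 ha
      · by_cases hs : (X.Δ : ℝ) / 100 ≤ ((dn X.G X.blk x).card : ℝ)
        · exact DPA.sb_case X hΔ1 x ω g4 hx hdeg hs ha
        · exact DPA.ns_case X hΔ1 x ω g4 hx hdeg (not_le.1 hs) hc1 hc2 ha

end Pool.Agent.Work.MP_db9399_all
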