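import Pool.Agent.Work.MP_db9399_all.MVT
import Pool.Agent.Work.MP_db9399_all_helper2.DE3
import Pool.Agent.Work.MP_db9399_all_helper2.SP3
import Pool.Agent.Work.MP_db9399_all_helper24.CLS
import Pool.Agent.Work.MP_db9399_all_helper24.DEC
import Pool.Agent.Work.MP_db9399_all_helper24.PAL
import Pool.Agent.Work.MP_db9399_all_helper35.DSM
import Pool.Agent.Work.MP_db9399_all_helper35.SP2
import Pool.Agent.Work.MP_db9399_all_helper43.DEB
import Pool.Agent.Work.MP_db9399_all_helper43.DES
import Pool.Agent.Work.MP_db9399_all_helper6.AL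
import Pool.Agent.Work.MP_db9399_all_helper6.LLLI
import Pool.Agent.Work.MP_db9399_all_helper68.CNT
import Pool.Agent.Work.MP_db9399_all_helper68.SP1
import Pool.Agent.Work.MP_db9399_all_helper7.PE2
import Pool.Agent.Work.MP_db9399_all_helper7.RNH
import Pool.Agent.Work.MP_db9399_all_helper7.RNK
import Pool.Agent.Work.MP_db9399_all_helper7.RND
import Pool.Agent.Work.MP_db9399_all_helper72.PRC
import Pool.Agent.Work.MP_db9399_all_helper72.LLLK
import Pool.Agent.Work.MP_db9399_all_helper75.DPA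
import Pool.Agent.Work.MP_db9399_all_helper75.FIN
import Pool.Agent.Work.MP_db9399_all_helper95.GRE
import Pool.Agent.Work.MP_db9399_all_helper95.STEP
import Pool.Agent.Work.MP_db9399_all_helper95.VIZ

/-!
The final assembly: every total colouring, with at least `Δ + C` colours, of a distance-3 matching
of a finite graph `G` extends to `G`.
-/

set_option autoImplicit false

namespace Pool.Agent.Work.MP_db9399_all

open _root_.MP_db9399_co

universe u

theorem all_RND : Stmt_RND.{u} := stmt_RND stmt_LLLI stmt_RNH stmt_RNK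

theorem all_STEP : Stmt_STEP.{u} := stmt_STEP all_RND

theorem all_MVT : Stmt_MVT.{u} :=
  stmt_MVT stmt_DEC stmt_CLS stmt_PAL
    (stmt_DPH (stmt_LLLK stmt_AL) (stmt_DSM stmt_PRC stmt_PRD) (stmt_DE3 stmt_PE3)
      (stmt_DEB stmt_PE2) (stmt_DES stmt_PE1))
    (stmt_SP1 all_STEP) (stmt_SP2 all_STEP) (stmt_SP3 stmt_CNT) stmt_CNT

theorem final : ∃ C : ℕ, ∀ {V : Type u} [Fintype V] (G : SimpleGraph V) (Δ k : ℕ),
      (∀ v, (nb G v).card ≤ Δ) → Δ + C ≤ k → ∀ H : G.Subgraph, IsDistThreeMatching H →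
      EveryTotalColoringExtends H (Fin k) :=
  stmt_FIN all_MVT stmt_VIZ stmt_GRE

theorem final_maxDegree : ∃ C : ℕ, ∀ (V : Type u) [Fintype V] (G : SimpleGraph V)
    [DecidableRel G.Adj] (k : ℕ), G.maxDegree + C ≤ k → ∀ H : G.Subgraph,
      IsDistThreeMatching H → EveryTotalColoringExtends H (Fin k) := by
  obtain ⟨C, h⟩ := final.{u}
  refine ⟨C, fun V _ G _ k hk H hH => h G G.maxDegree k (fun v => ?_) hk H hH⟩
  have h1 : nb G v = G.neighborFinset v := by
    ext w
    simp [nb]
  rw [h1]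
  exact G.degree_le_maxDegree v

end Pool.Agent.Work.MP_db9399_all
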